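import Mathlib
import Pool.Agent.H69.LB.BrgL
import Pool.Agent.H69.LB.Fin

open Filter Topology
open scoped Real
open Pool.Agent Pool.Agent.H6

namespace Pool.Agent.H91.Park.FormFactorBeyondOne

/-- Montgomery's function `F(α) = F(α, T)`: `((T / 2π) log T)⁻¹` times the sum over the ordered pairs
of nontrivial zeros with `0 < γ, γ' ≤ T`, counted with multiplicity, of
`cos(α (γ - γ') log T) w(γ - γ')` with `w(u) = 4 / (4 + u²)`. -/
noncomputable def formFactor (T α : ℝ) : ℝ :=
  (PC.norm T)⁻¹ * ∑ᶠ p ∈ {p : ℂ × ℂ | p.1 ∈ PC.zerosUpTo T ∧ p.2 ∈ PC.zerosUpTo T},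
    (analyticOrderNatAt riemannZeta p.1 : ℝ) * (analyticOrderNatAt riemannZeta p.2 : ℝ) *
      (Real.cos (α * Real.log T * (p.1.im - p.2.im)) * (4 / (4 + (p.1.im - p.2.im) ^ 2)))

lemma formFactor_eq (hRH : RiemannHypothesis) (T α : ℝ) :
    formFactor T α = H69LB.FFz gZ wZ FZ T α := by
  have e : (T * Real.log T)⁻¹ * (2 * Real.pi) = (PC.norm T)⁻¹ := by
    unfold PC.norm
    rw [mul_inv, mul_inv, inv_div]
    ring
  unfold formFactor H69LB.FFz
  rw [H69LB.finsum_zeros hRH T (fun x => Real.cos (α * Real.log T * x) * (4 / (4 + x ^ 2))), e]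

/-- **A pointwise lower bound for Montgomery's function beyond `|α| = 1`, on the Riemann hypothesis
alone.** If RH holds, then for every `ε > 0` and all large `T`, for all `α` with `|α| ≥ 1`,
`F(α, T) ≥ 3/2 - |α| - ε`. (For `|α| < 3/2` this is a positive lower bound, in the range in which
the pair correlation conjecture predicts `F(α, T) → 1`.) -/
theorem result (hRH : RiemannHypothesis) :
    ∀ ε > 0, ∀ᶠ T in atTop, ∀ α : ℝ, 1 ≤ |α| → 3 / 2 - |α| - ε ≤ formFactor T α := by
  intro ε hε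
  filter_upwards [H69LB.main (H69LB.zer hRH) ε hε] with T hT α hα
  rw [formFactor_eq hRH]
  exact hT α hα

end Pool.Agent.H91.Park.FormFactorBeyondOne
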